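import Pool.Agent.Helper33.HM.RO
import Pool.Agent.Helper33.HM.Names

/-!
# Project DS (MP_743798_lc): the forcing

The base forcing `Base` adds a tree order on `W = ω₁` together with a family of subsets of `ω`
indexed by `W`, decreasing mod finite along the tree order and almost disjoint for incomparable
nodes. The iteration `P e` of length `Ordinal.{0}` adds at every stage `j` a function `ω → ω`: its
values at even numbers dominate all functions of the earlier model, the values at odd numbers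
give a sequence in a set `A` converging to a node `x` with respect to the earlier members of the
scale (the value `0` means: no node). The `j`-th member of the scale is given by the partial sums
of the function, so that it grows faster than the nodes of the sequence. Conditions contain no names: `st j` is a finite initial segment of the generic function of
the stage `j`, and `pr` is a finite set of promises `(j, ξ)`. Finally, `Q e` is the iteration
followed by the tree order on `W`.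
-/

set_option autoImplicit false

namespace Pool.Agent.Helper50.DS

open Pool.Agent.Helper33.HM

/-- Nodes of the tree of finite sequences of natural numbers. -/
abbrev Node := List ℕ

/-- The weight of a node. -/
def N (t : Node) : ℕ := t.length + t.sum

/-- The set `ω₁`. -/
abbrev W : Type := (Cardinal.aleph 1 : Cardinal.{0}).ord.ToType

/-! ## The base forcing -/

/-- Finite approximations of a tree order on `W` (`pre b` is the set of predecessors of `b` in
the finite set `u` of nodes) and of a family of subsets of `ω` (`A b` is a subset of `n`). -/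
structure Base where
  u : Finset W
  pre : W → Finset W
  sub : ∀ b, ∀ a ∈ pre b, a ∈ u ∧ b ∈ u ∧ a < b
  coh : ∀ b, ∀ a ∈ pre b, pre a = (pre b).filter (· < a)
  n : ℕ
  A : W → Finset ℕ
  lt : ∀ a, ∀ m ∈ A a, m < n ∧ a ∈ u

namespace Base

/-- The order of the base forcing. The new elements of the sets respect the tree order of the
weaker condition. -/
def leq (t' t : Base) : Prop :=
  t.u ⊆ t'.u ∧ (∀ b ∈ t.u, ∀ a ∈ t.u, a ∈ t'.pre b ↔ a ∈ t.pre b) ∧ t.n ≤ t'.n ∧
    (∀ a ∈ t.u, ∀ m < t.n, m ∈ t'.A a ↔ m ∈ t.A a) ∧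
    ∀ m, t.n ≤ m → ∀ b ∈ t.u, m ∈ t'.A b → ∀ a ∈ t.u,
      (a ∈ t.pre b → m ∈ t'.A a) ∧ (m ∈ t'.A a → a = b ∨ a ∈ t.pre b ∨ b ∈ t.pre a)

instance : Preorder Base where
  le := leq
  le_refl t := by
    refine ⟨subset_rfl, fun _ _ _ _ => Iff.rfl, le_rfl, fun _ _ _ _ => Iff.rfl, ?_⟩
    intro m hm b hb hmb
    exact absurd (t.lt b m hmb).1 (not_lt.2 hm)
  le_trans t₃ t₂ t₁ h32 h21 := by
    obtain ⟨a1, a2, a3, a4, a5⟩ := h32
    obtain ⟨b1, b2, b3, b4, b5⟩ := h21
    refine ⟨b1.trans a1, fun b hb a ha => (a2 b (b1 hb) a (b1 ha)).trans (b2 b hb a ha),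
      b3.trans a3, fun a ha m hm => (a4 a (b1 ha) m (hm.trans_le b3)).trans (b4 a ha m hm), ?_⟩
    intro m hm b hb hmb a ha
    rcases lt_or_ge m t₂.n with h | h
    · have h1 := (a4 b (b1 hb) m h).1 hmb
      obtain ⟨c1, c2⟩ := b5 m hm b hb h1 a ha
      exact ⟨fun h2 => (a4 a (b1 ha) m h).2 (c1 h2), fun h2 => c2 ((a4 a (b1 ha) m h).1 h2)⟩
    · obtain ⟨c1, c2⟩ := a5 m h b (b1 hb) hmb a (b1 ha)
      refine ⟨fun h2 => c1 ((b2 b hb a ha).2 h2), fun h2 => ?_⟩
      rcases c2 h2 with h3 | h3 | h3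
      · exact Or.inl h3
      · exact Or.inr (Or.inl ((b2 b hb a ha).1 h3))
      · exact Or.inr (Or.inr ((b2 a ha b hb).1 h3))

theorem le_def {t' t : Base} : t' ≤ t ↔ t.u ⊆ t'.u ∧
    (∀ b ∈ t.u, ∀ a ∈ t.u, a ∈ t'.pre b ↔ a ∈ t.pre b) ∧ t.n ≤ t'.n ∧
    (∀ a ∈ t.u, ∀ m < t.n, m ∈ t'.A a ↔ m ∈ t.A a) ∧
    ∀ m, t.n ≤ m → ∀ b ∈ t.u, m ∈ t'.A b → ∀ a ∈ t.u,
      (a ∈ t.pre b → m ∈ t'.A a) ∧ (m ∈ t'.A a → a = b ∨ a ∈ t.pre b ∨ b ∈ t.pre a) := Iff.rfl

instance : OrderTop Base where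
  top := ⟨∅, fun _ => ∅, by simp, by simp, 0, fun _ => ∅, by simp⟩
  le_top t := by
    refine ⟨Finset.empty_subset _, ?_, Nat.zero_le _, ?_, ?_⟩
    · intro b hb
      exact absurd hb (Finset.notMem_empty b)
    · intro b hb
      exact absurd hb (Finset.notMem_empty b)
    · intro m _ b hb
      exact absurd hb (Finset.notMem_empty b)

/-- `a` is below `s` or equal to `s` in the tree order. -/
def Bel (t : Base) (a s : W) : Prop := a = s ∨ a ∈ t.pre s

end Base

/-! ## The iteration -/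

/-- Conditions of the iteration. -/
structure Cnd (T : Type) : Type 1 where
  t : T
  st : Ordinal.{0} → List ℕ
  fin : {j | st j ≠ []}.Finite
  pr : Finset (Ordinal.{0} × Ordinal.{0})

/-- All indices of the condition are less than `i`. -/
def Cnd.lt {T : Type} (p : Cnd T) (i : Ordinal.{0}) : Prop :=
  (∀ j, i ≤ j → p.st j = []) ∧ ∀ x ∈ p.pr, x.1 < i

/-- The bookkeeping data: for every ordinal a code of a sequence of truth values, and a node. -/
abbrev Cod (T : Type) : Type 1 := Ordinal.{0} → (ℕ → ℕ → Option (Cnd T)) × Node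

/-- The strictly increasing function given by the partial sums of the sequence `σ`. -/
def GS (σ : List ℕ) (m : ℕ) : ℕ := ∑ i ∈ Finset.range (2 * m + 1), (σ.getD i 0 + 1)

/-- The node `a` belongs to the tree `U(g ∘ N)`. -/
def UL (g : ℕ → ℕ) (a : Node) : Prop := ∀ (i : ℕ) (h : i < a.length), a[i] ≠ g (N (a.take i))

section Iter

variable {T : Type} [Preorder T]

/-- The requirement at the stage `j` of the promise `ξ` for the value `v` at `n`; here `R` is the
order of the conditions up to the stage `j`. For even `n`: if `ξ` codes a (total) function then its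
value at `n / 2` is at most `v`. For odd `n`: `v = 0` or `v` codes a node `a` in the set coded at
`j`, which extends a successor `x ++ [l]` of the node `x`, `l ≥ n / 2`, and, if `ξ < j` and `x`
belongs to the tree of the `ξ`-th member of the scale, then so does `a`. -/
def Al (e : Cod T) (j : Ordinal.{0}) (R : Cnd T → Cnd T → Prop) (ξ : Ordinal.{0}) (n v : ℕ)
    (r : Cnd T) : Prop :=
  if n % 2 = 0 then
    (∀ (m : ℕ) (q : Cnd T), ∃ r', R r' q ∧ ∃ k i c, (e ξ).1 (Nat.pair m k) i = some c ∧ R r' c) →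
      ∃ k ≤ v, ∃ i c, (e ξ).1 (Nat.pair (n / 2) k) i = some c ∧ R r c
  else
    v = 0 ∨ ∃ a : Node, v = Encodable.encode a + 1 ∧ (∃ l, n / 2 ≤ l ∧ (e j).2 ++ [l] <+: a) ∧
      (∃ i c, (e j).1 (Encodable.encode a) i = some c ∧ R r c) ∧
      (ξ < j → 2 * N a < (r.st ξ).length ∧ (UL (GS (r.st ξ)) (e j).2 → UL (GS (r.st ξ)) a))

/-- The requirement is met densely below `p`. -/
def AL (e : Cod T) (j : Ordinal.{0}) (R : Cnd T → Cnd T → Prop) (ξ : Ordinal.{0}) (n v : ℕ)
    (p : Cnd T) : Prop :=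
  ∀ q, R q p → ∃ r, R r q ∧ Al e j R ξ n v r

/-- The order relation at the coordinate `j`. -/
def Step (e : Cod T) (R : Cnd T → Cnd T → Prop) (j : Ordinal.{0}) (p q : Cnd T) : Prop :=
  q.st j <+: p.st j ∧ (∀ ξ, (j, ξ) ∈ q.pr → (j, ξ) ∈ p.pr) ∧
    ∀ (n : ℕ) (h : n < (p.st j).length), (q.st j).length ≤ n → ∀ ξ, (j, ξ) ∈ q.pr →
      AL e j R ξ n (p.st j)[n] p

/-- The order of the conditions up to the stage `i`. -/
noncomputable def LEi (e : Cod T) : Ordinal.{0} → Cnd T → Cnd T → Prop :=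
  (wellFounded_lt (α := Ordinal.{0})).fix fun i rec p q =>
    p.t ≤ q.t ∧ ∀ (j : Ordinal.{0}) (h : j < i), Step e (rec j h) j p q

theorem LEi_iff (e : Cod T) (i : Ordinal.{0}) (p q : Cnd T) :
    LEi e i p q ↔ p.t ≤ q.t ∧ ∀ j < i, Step e (LEi e j) j p q := by
  conv_lhs => rw [LEi, WellFounded.fix_eq]
  rfl

theorem LEi_refl (e : Cod T) (i : Ordinal.{0}) (p : Cnd T) : LEi e i p p := by
  rw [LEi_iff]
  exact ⟨le_rfl, fun j _ => ⟨List.prefix_refl _, fun _ h => h, fun n hn hn' =>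
    absurd hn (not_lt.2 hn')⟩⟩

theorem LEi_mono (e : Cod T) {i j : Ordinal.{0}} (h : j ≤ i) {p q : Cnd T} (hpq : LEi e i p q) :
    LEi e j p q := by
  rw [LEi_iff] at hpq ⊢
  exact ⟨hpq.1, fun k hk => hpq.2 k (hk.trans_le h)⟩

theorem LEi_trans (e : Cod T) (i : Ordinal.{0}) {p q r : Cnd T} (h1 : LEi e i p q)
    (h2 : LEi e i q r) : LEi e i p r := by
  induction i using WellFoundedLT.induction generalizing p q r with
  | ind i ih =>
    have h1' := (LEi_iff e i p q).1 h1
    have h2' := (LEi_iff e i q r).1 h2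
    rw [LEi_iff]
    refine ⟨h1'.1.trans h2'.1, fun j hj => ?_⟩
    obtain ⟨a1, a2, a3⟩ := h1'.2 j hj
    obtain ⟨b1, b2, b3⟩ := h2'.2 j hj
    refine ⟨b1.trans a1, fun ξ hξ => a2 ξ (b2 ξ hξ), fun n hn hn' ξ hξ => ?_⟩
    rcases lt_or_ge n (q.st j).length with h | h
    · have e1 : (p.st j)[n] = (q.st j)[n] := (List.IsPrefix.getElem a1 h).symm
      rw [e1]
      intro s hs
      exact b3 n h hn' ξ hξ s (ih j hj hs (LEi_mono e hj.le h1))
    · exact a3 n hn h ξ (b2 ξ hξ)

/-- The iteration. -/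
def P (_ : Cod T) : Type 1 := Cnd T

variable (e : Cod T)

instance : Preorder (P e) where
  le p q := ∀ i, LEi e i p q
  le_refl p i := LEi_refl e i p
  le_trans _ _ _ h1 h2 i := LEi_trans e i (h1 i) (h2 i)

theorem le_def {p q : P e} : p ≤ q ↔ ∀ i, LEi e i p q := Iff.rfl

theorem le_iff {p q : P e} : p ≤ q ↔ p.t ≤ q.t ∧ ∀ j, Step e (LEi e j) j p q := by
  constructor
  · intro h
    exact ⟨((LEi_iff e 0 p q).1 (h 0)).1, fun j =>
      ((LEi_iff e _ p q).1 (h (Order.succ j))).2 j (Order.lt_succ j)⟩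
  · intro h i
    rw [LEi_iff]
    exact ⟨h.1, fun j _ => h.2 j⟩

instance [OrderTop T] : OrderTop (P e) where
  top := ⟨⊤, fun _ => [], by simp, ∅⟩
  le_top p := by
    rw [le_iff]
    refine ⟨le_top, fun j => ⟨List.nil_prefix, ?_, ?_⟩⟩
    · intro ξ hξ
      exact absurd hξ (Finset.notMem_empty _)
    · intro n _ _ ξ hξ
      exact absurd hξ (Finset.notMem_empty _)

/-- The regular open sets which depend only on the first `i` coordinates. -/
def Sub (i : Ordinal.{0}) : Set (RO (P e)) := {U | ∀ p ∈ U, ∀ q : P e, LEi e i q p → q ∈ U}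

/-- Every pair (code, node) occurs cofinally often in the bookkeeping. -/
def Full : Prop :=
  ∀ (c : ℕ → ℕ → Option (Cnd T)) (x : Node) (j : Ordinal.{0}), ∃ k, j ≤ k ∧ e k = (c, x)

/-- The value of: the generic function of the stage `j` has the value `v` at `n`. -/
def gv (j : Ordinal.{0}) (n v : ℕ) : RO (P e) :=
  RO.gen {p : P e | ∃ h : n < (p.st j).length, (p.st j)[n] = v}

/-- The name of the `j`-th member of the scale: `G e j m k` is the value of `G_j(m) ≤ k`. -/
def G (j : Ordinal.{0}) (m k : ℕ) : RO (P e) :=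
  RO.gen {p : P e | 2 * m < (p.st j).length ∧ GS (p.st j) m ≤ k}

/-- The value of: the `m`-th generic node of the stage `j` is `a`. -/
def cs (j : Ordinal.{0}) (m : ℕ) (a : Node) : RO (P e) := gv e j (2 * m + 1) (Encodable.encode a + 1)

end Iter

section Names

universe u

variable {B : Type u} [CompleteBooleanAlgebra B]

/-- The value of: `f(n) ≤ g(n)` for all but finitely many `n`. -/
def leS (f g : ℕ → ℕ → B) : B := ⨆ m : ℕ, ⨅ n : ℕ, ⨅ _ : m ≤ n, ⨅ k : ℕ, g n k ⇨ f n k

/-- The value of: the node `a` belongs to `U(g ∘ N)`. -/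
def uV (g : ℕ → ℕ → B) (a : Node) : B :=
  ⨅ i : ℕ, ⨅ h : i < a.length, (eqN (g (N (a.take i))) a[i])ᶜ

section Scales

variable {J : Type u}

/-- The value of: the node `x` belongs to the closure of `A` minus the point `x`, in the Dow space of
the family of all `g j ∘ N` (where `j` belongs to the index set given by `w`). -/
def clV (w : J → B) (g : J → ℕ → ℕ → B) (A : Node → B) (x : Node) : B :=
  ⨅ D : Finset J, ⨅ m : ℕ, (⨅ j : J, ⨅ _ : j ∈ D, w j ⊓ uV (g j) x) ⇨
    ⨆ a : Node, ⨆ _ : ∃ l, m ≤ l ∧ x ++ [l] <+: a, A a ⊓ ⨅ j : J, ⨅ _ : j ∈ D, uV (g j) a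

/-- The value of: `z` is a sequence of elements of `A` (`z k a` is the value of: the `k`-th element
is `a`) which converges to `x` in the Dow space of the family. -/
def convV (w : J → B) (g : J → ℕ → ℕ → B) (A : Node → B) (x : Node) (z : ℕ → Node → B) : B :=
  (⨅ k : ℕ, ⨆ a : Node, z k a ⊓ A a) ⊓
    (⨅ k : ℕ, ⨅ a : Node, ⨅ b : Node, ⨅ _ : a ≠ b, (z k a ⊓ z k b)ᶜ) ⊓
    (⨅ m : ℕ, ⨆ K : ℕ, ⨅ k : ℕ, ⨅ _ : K ≤ k, ⨆ a : Node, ⨆ _ : ∃ l, m ≤ l ∧ x ++ [l] <+: a, z k a) ⊓
    ⨅ j : J, (w j ⊓ uV (g j) x) ⇨ ⨆ K : ℕ, ⨅ k : ℕ, ⨅ _ : K ≤ k, ⨅ a : Node, z k a ⇨ uV (g j) a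

/-- A name of a scale: the members are the strictly increasing functions `g j`, for the `j` in the
index set given by `w`; they increase with `j`, and every small family of functions is bounded by
one of them. -/
structure WScale [LinearOrder J] (w : J → B) (g : J → ℕ → ℕ → B) : Prop where
  wf : WellFoundedLT J
  small : ∀ j : J, Small.{0} (Set.Iio j)
  fn : ∀ j, IsFn Set.univ (g j)
  strict : ∀ j m k, g j (m + 1) (k + 1) ≤ g j m k
  zero : ∀ j m, g j m 0 = ⊥
  le : ∀ j j', j < j' → w j ⊓ w j' ≤ leS (g j) (g j')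
  nle : ∀ j j', j < j' → w j ⊓ w j' ⊓ leS (g j') (g j) = ⊥
  dom : ∀ (ι : Type) (φ : ι → ℕ → ℕ → B), (∀ i, IsFn Set.univ (φ i)) →
    ∃ j, w j = ⊤ ∧ ∀ i, leS (φ i) (g j) = ⊤
  root : ∀ j n, ⨆ j' : J, ⨆ _ : j ≤ j', w j' ⊓ (g j' 0 n)ᶜ = ⊤

/-- The Dow space of the scale is Frechet. -/
def FreV (w : J → B) (g : J → ℕ → ℕ → B) : Prop :=
  ∀ (A : Node → B) (x : Node), clV w g A x ≤ ⨆ z : ℕ → Node → B, convV w g A x z

/-- The Dow space of the scale is not Frechet, as witnessed by a set of the ground model. -/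
def NonFreV (w : J → B) (g : J → ℕ → ℕ → B) : Prop :=
  ∃ (A : Set Node) (x : Node), x ∉ A ∧ clV w g (fun a => ⨆ _ : a ∈ A, ⊤) x = ⊤ ∧
    ∀ z : ℕ → Node → B, convV w g (fun a => ⨆ _ : a ∈ A, ⊤) x z = ⊥

end Scales

end Names

/-! ## The last step: the tree order -/

/-- Conditions of the whole forcing: a condition of the iteration and possibly a node of the
tree. -/
structure Q (e : Cod Base) : Type 1 where
  c : P e
  s : Option W
  mem : ∀ a, s = some a → a ∈ c.t.u

section Q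

variable (e : Cod Base)

theorem Base.bel_of_le {t' t : Base} (h : t' ≤ t) {a s : W} (ha : a ∈ t.u) (hs : s ∈ t.u) :
    t'.Bel a s ↔ t.Bel a s := or_congr Iff.rfl (h.2.1 s hs a ha)

theorem Base.bel_trans {t : Base} {a b c : W} (h1 : t.Bel a b) (h2 : t.Bel b c) : t.Bel a c := by
  rcases h1 with rfl | h1
  · exact h2
  · rcases h2 with rfl | h2
    · exact Or.inr h1
    · refine Or.inr ?_
      rw [t.coh c b h2] at h1
      exact (Finset.mem_filter.1 h1).1

theorem base_of_le {p q : P e} (h : p ≤ q) : p.t ≤ q.t := ((LEi_iff e 0 p q).1 (h 0)).1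

instance : Preorder (Q e) where
  le q' q := q'.c ≤ q.c ∧ ∀ a, q.s = some a → ∃ b, q'.s = some b ∧ q'.c.t.Bel a b
  le_refl q := ⟨le_rfl, fun a ha => ⟨a, ha, Or.inl rfl⟩⟩
  le_trans q₃ q₂ q₁ h32 h21 := by
    refine ⟨h32.1.trans h21.1, fun a ha => ?_⟩
    obtain ⟨b, hb, hab⟩ := h21.2 a ha
    obtain ⟨c, hc, hbc⟩ := h32.2 b hb
    refine ⟨c, hc, ?_⟩
    have h1 : a ∈ q₂.c.t.u := (base_of_le e h21.1).1 (q₁.mem a ha)
    have h2 : b ∈ q₂.c.t.u := q₂.mem b hb
    exact Base.bel_trans ((Base.bel_of_le (base_of_le e h32.1) h1 h2).2 hab) hbc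

theorem Q.le_def {q' q : Q e} : q' ≤ q ↔
    q'.c ≤ q.c ∧ ∀ a, q.s = some a → ∃ b, q'.s = some b ∧ q'.c.t.Bel a b := Iff.rfl

instance : OrderTop (Q e) where
  top := ⟨⊤, none, by simp⟩
  le_top q := ⟨le_top, by simp⟩

/-- The image of a truth value of the iteration in the algebra of the whole forcing. -/
def up (U : RO (P e)) : RO (Q e) where
  carrier := {q | q.c ∈ U}
  lower _ hp _ hq := RO.mem_lower hq.1 hp
  reg p hp := RO.mem_reg fun c hc => by
    obtain ⟨r, hr, hrU⟩ := hp ⟨c, p.s, fun a ha => (base_of_le e hc).1 (p.mem a ha)⟩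
      ⟨hc, fun a ha => ⟨a, ha, Or.inl rfl⟩⟩
    exact ⟨r.c, hr.1, hrU⟩

theorem mem_up {U : RO (P e)} {q : Q e} : q ∈ up e U ↔ q.c ∈ U := Iff.rfl

/-- The value of: the node `s` belongs to the generic branch. -/
def inB (s : W) : RO (Q e) := RO.gen {q : Q e | ∃ b, q.s = some b ∧ q.c.t.Bel s b}

/-- The value of: the number `n` belongs to the generic set with index `s`. -/
def aT (s : W) (n : ℕ) : RO (P e) := RO.gen {p : P e | n ∈ p.t.A s}

end Q

end Pool.Agent.Helper50.DS
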