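import Pool.Agent.Helper50.DS.Defs

/-!
# Project DS, module I1: restriction and glueing of conditions
-/

set_option autoImplicit false
set_option linter.unusedSectionVars false

namespace Pool.Agent.Helper50.DS

open Pool.Agent.Helper33.HM

variable {T : Type} [Preorder T] (e : Cod T)

/-- The condition which agrees with `q` below `i` and with `p` from `i` on. -/
noncomputable def glue (i : Ordinal.{0}) (q p : Cnd T) : Cnd T where
  t := q.t
  st := fun j => if j < i then q.st j else p.st j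
  fin := by
    refine (q.fin.union p.fin).subset fun j hj => ?_
    simp only [Set.mem_ofPred_eq] at hj
    by_cases h : j < i
    · rw [if_pos h] at hj
      exact Or.inl hj
    · rw [if_neg h] at hj
      exact Or.inr hj
  pr := open Classical in (q.pr.filter fun x => x.1 < i) ∪ p.pr.filter fun x => i ≤ x.1

theorem glue_st_lt {i j : Ordinal.{0}} (h : j < i) (q p : Cnd T) : (glue i q p).st j = q.st j :=
  if_pos h

theorem glue_st_ge {i j : Ordinal.{0}} (h : i ≤ j) (q p : Cnd T) : (glue i q p).st j = p.st j :=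
  if_neg (not_lt.2 h)

theorem mem_glue_pr {i : Ordinal.{0}} {q p : Cnd T} {x : Ordinal.{0} × Ordinal.{0}} :
    x ∈ (glue i q p).pr ↔ (x ∈ q.pr ∧ x.1 < i) ∨ (x ∈ p.pr ∧ i ≤ x.1) := by
  simp [glue]

theorem glue_LEi {i j : Ordinal.{0}} (hj : j ≤ i) (q p : Cnd T) : LEi e j (glue i q p) q := by
  rw [LEi_iff]
  refine ⟨le_rfl, fun k hk => ?_⟩
  have hki : k < i := hk.trans_le hj
  refine ⟨?_, fun ξ hξ => mem_glue_pr.2 (Or.inl ⟨hξ, hki⟩), fun n hn hn' => ?_⟩
  · rw [glue_st_lt hki]
  · rw [glue_st_lt hki] at hn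
    exact absurd hn (not_lt.2 hn')

theorem LEi_glue {i j : Ordinal.{0}} (hj : j ≤ i) (q p : Cnd T) : LEi e j q (glue i q p) := by
  rw [LEi_iff]
  refine ⟨le_rfl, fun k hk => ?_⟩
  have hki : k < i := hk.trans_le hj
  refine ⟨?_, fun ξ hξ => ?_, fun n hn hn' => ?_⟩
  · rw [glue_st_lt hki]
  · rcases mem_glue_pr.1 hξ with h | h
    · exact h.1
    · exact absurd hki (not_lt.2 h.2)
  · rw [glue_st_lt hki] at hn'
    exact absurd hn (not_lt.2 hn')

theorem glue_le {i : Ordinal.{0}} {q p : P e} (h : LEi e i q p) :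
    @LE.le (P e) _ (glue i q p) p := by
  rw [le_iff]
  have h' := (LEi_iff e i q p).1 h
  refine ⟨h'.1, fun j => ?_⟩
  rcases lt_or_ge j i with hj | hj
  · obtain ⟨a1, a2, a3⟩ := h'.2 j hj
    refine ⟨?_, fun ξ hξ => mem_glue_pr.2 (Or.inl ⟨a2 ξ hξ, hj⟩), fun n hn hn' ξ hξ => ?_⟩
    · rw [glue_st_lt hj]
      exact a1
    · have h1 : ∀ (h : n < ((glue i q p).st j).length), ((glue i q p).st j)[n] =
          (q.st j)[n]'(by rw [glue_st_lt hj] at h; exact h) := by
        intro h
        congr 1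
        exact glue_st_lt hj q p
      rw [h1]
      intro s hs
      refine a3 n _ hn' ξ hξ s ?_
      exact LEi_trans e j hs (glue_LEi e hj.le q p)
  · refine ⟨?_, fun ξ hξ => mem_glue_pr.2 (Or.inr ⟨hξ, hj⟩), fun n hn hn' => ?_⟩
    · rw [glue_st_ge hj]
    · rw [glue_st_ge hj] at hn
      exact absurd hn (not_lt.2 hn')

omit [Preorder T] in
theorem lt_mono {p : Cnd T} {i j : Ordinal.{0}} (h : p.lt i) (hij : i ≤ j) : p.lt j :=
  ⟨fun k hk => h.1 k (hij.trans hk), fun x hx => (h.2 x hx).trans_le hij⟩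

omit [Preorder T] in
theorem exists_lt (p : Cnd T) : ∃ i, p.lt i := by
  classical
  let S : Finset Ordinal.{0} := p.fin.toFinset ∪ p.pr.image Prod.fst
  refine ⟨Order.succ (S.sup id), fun j hj => ?_, fun x hx => ?_⟩
  · by_contra hne
    have h1 : j ∈ S := Finset.mem_union_left _ (p.fin.mem_toFinset.2 hne)
    have h2 : j ≤ S.sup id := Finset.le_sup (f := id) h1
    exact absurd (Order.lt_succ_of_le h2) (not_lt.2 hj)
  · have h1 : x.1 ∈ S := Finset.mem_union_right _ (Finset.mem_image_of_mem _ hx)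
    exact Order.lt_succ_of_le (Finset.le_sup (f := id) h1)

theorem le_of_LEi {i : Ordinal.{0}} {p a : P e} (ha : Cnd.lt a i) (h : LEi e i p a) : p ≤ a := by
  rw [le_iff]
  have h' := (LEi_iff e i p a).1 h
  refine ⟨h'.1, fun j => ?_⟩
  rcases lt_or_ge j i with hj | hj
  · exact h'.2 j hj
  · have h1 : a.st j = [] := ha.1 j hj
    refine ⟨?_, fun ξ hξ => absurd (ha.2 _ hξ) (not_lt.2 hj),
      fun n _ _ ξ hξ => absurd (ha.2 _ hξ) (not_lt.2 hj)⟩
    rw [h1]
    exact List.nil_prefix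

/-- The restriction of `p` to the coordinates below `i`. -/
noncomputable def res (i : Ordinal.{0}) (p : Cnd T) : Cnd T :=
  glue i p ⟨p.t, fun _ => [], by simp, ∅⟩

theorem res_lt (i : Ordinal.{0}) (p : Cnd T) : (res i p).lt i := by
  refine ⟨fun j hj => glue_st_ge hj _ _, fun x hx => ?_⟩
  rcases mem_glue_pr.1 hx with h | h
  · exact h.2
  · exact absurd h.1 (Finset.notMem_empty _)

theorem res_LEi {i j : Ordinal.{0}} (hj : j ≤ i) (p : Cnd T) : LEi e j (res i p) p :=
  glue_LEi e hj _ _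

theorem LEi_res {i j : Ordinal.{0}} (hj : j ≤ i) (p : Cnd T) : LEi e j p (res i p) :=
  LEi_glue e hj _ _

end Pool.Agent.Helper50.DS
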